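import Pool.Agent.Helper60.L1Full.Stmts

/-! CARDM: there are at most `2 ^ #I` probability measures on `{0,1}^I`. -/

namespace DualL1

open Filter Topology MeasureTheory Cardinal
open scoped ENNReal Classical

universe u v w

/-- the cylinder `{x : x_i = 1 for all i ∈ F}` -/
def CARDM_cyl {I : Type u} (F : Finset I) : Set (I → Bool) := {x | ∀ i ∈ F, x i = true}

lemma CARDM_cyl_inter {I : Type u} (F G : Finset I) :
    CARDM_cyl F ∩ CARDM_cyl G = CARDM_cyl (F ∪ G) := by
  ext x
  constructor
  · rintro ⟨h1, h2⟩ i hi
    rcases Finset.mem_union.1 hi with h | h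
    · exact h1 i h
    · exact h2 i h
  · intro h
    exact ⟨fun i hi => h i (Finset.mem_union_left _ hi),
      fun i hi => h i (Finset.mem_union_right _ hi)⟩

lemma CARDM_gen (I : Type u) : (MeasurableSpace.pi : MeasurableSpace (I → Bool)) =
    MeasurableSpace.generateFrom (Set.range (CARDM_cyl (I := I))) := by
  apply le_antisymm
  · refine iSup_le (fun i => ?_)
    rw [MeasurableSpace.comap_le_iff_le_map]
    intro s _
    -- every subset of `Bool`
    have h1 : MeasurableSet[MeasurableSpace.generateFrom (Set.range (CARDM_cyl (I := I)))]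
        {x : I → Bool | x i = true} := by
      apply MeasurableSpace.measurableSet_generateFrom
      exact ⟨{i}, by ext x; simp [CARDM_cyl]⟩
    have h2 : MeasurableSet[MeasurableSpace.generateFrom (Set.range (CARDM_cyl (I := I)))]
        {x : I → Bool | x i = false} := by
      have := h1.compl
      refine (congrArg _ ?_).mp this
      ext x
      simp
    have h3 : (fun x : I → Bool => x i) ⁻¹' s =
        (if true ∈ s then {x : I → Bool | x i = true} else ∅) ∪
          (if false ∈ s then {x : I → Bool | x i = false} else ∅) := by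
      ext x
      by_cases ht : true ∈ s <;> by_cases hf : false ∈ s <;> cases hx : x i <;>
        simp [ht, hf, hx]
    show MeasurableSet[MeasurableSpace.generateFrom (Set.range (CARDM_cyl (I := I)))]
      ((fun x : I → Bool => x i) ⁻¹' s)
    rw [h3]
    refine MeasurableSet.union ?_ ?_
    · by_cases ht : true ∈ s
      · rw [if_pos ht]; exact h1
      · rw [if_neg ht]
        exact @MeasurableSet.empty _ (MeasurableSpace.generateFrom (Set.range (CARDM_cyl (I := I))))
    · by_cases ht : false ∈ s
      · rw [if_pos ht]; exact h2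
      · rw [if_neg ht]
        exact @MeasurableSet.empty _ (MeasurableSpace.generateFrom (Set.range (CARDM_cyl (I := I))))
  · apply MeasurableSpace.generateFrom_le
    rintro _ ⟨F, rfl⟩
    have : CARDM_cyl F = ⋂ i ∈ F, {x : I → Bool | x i = true} := by
      ext x; simp [CARDM_cyl]
    rw [this]
    refine Finset.measurableSet_biInter F (fun i _ => ?_)
    show MeasurableSet ((fun x : I → Bool => x i) ⁻¹' {true})
    exact (measurable_pi_apply i) (measurableSet_singleton true)

theorem st_CARDM : ST_CARDM.{u} := by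
  intro I _
  have hinj : Function.Injective
      (fun (ν : {ν : Measure (I → Bool) // IsProbabilityMeasure ν}) (F : Finset I) =>
        ν.1 (CARDM_cyl F)) := by
    rintro ⟨ν, hν⟩ ⟨ν', hν'⟩ h
    apply Subtype.ext
    refine ext_of_generate_finite (Set.range (CARDM_cyl (I := I))) (CARDM_gen I) ?_ ?_ ?_
    · rintro _ ⟨F, rfl⟩ _ ⟨G, rfl⟩ _
      exact ⟨F ∪ G, (CARDM_cyl_inter F G).symm⟩
    · rintro _ ⟨F, rfl⟩
      exact congrFun h F
    · rw [measure_univ, measure_univ]
  have h1 := Cardinal.mk_le_of_injective hinj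
  refine h1.trans ?_
  have h2 : #(Finset I) = #I := Cardinal.mk_finset_of_infinite I
  have h3 : #ℝ≥0∞ ≤ 𝔠 := by
    have h4 : Function.Injective (fun x : ℝ≥0∞ => ((x.toReal, x = ∞) : ℝ × Prop)) := by
      intro x y hxy
      simp only [Prod.mk.injEq, eq_iff_iff] at hxy
      by_cases hx : x = ∞
      · rw [hx, hxy.2.1 hx]
      · exact (ENNReal.toReal_eq_toReal_iff' hx (fun h => hx (hxy.2.2 h))).1 hxy.1
    refine (Cardinal.mk_le_of_injective h4).trans ?_
    rw [Cardinal.mk_prod, Cardinal.lift_id, Cardinal.lift_id, Cardinal.mk_real]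
    refine (mul_le_mul_right (?_ : #Prop ≤ 𝔠) 𝔠).trans (le_of_eq Cardinal.continuum_mul_self)
    exact (Cardinal.lt_aleph0_of_finite Prop).le.trans Cardinal.aleph0_le_continuum
  calc #(Finset I → ℝ≥0∞) = Cardinal.lift.{u} #ℝ≥0∞ ^ #I := by
        rw [Cardinal.mk_arrow, h2]
        simp
    _ ≤ 𝔠 ^ #I := by
        refine Cardinal.power_le_power_right ?_
        rw [← Cardinal.lift_continuum.{u, 0}]
        exact Cardinal.lift_le.2 h3
    _ = 2 ^ #I := by
        rw [← Cardinal.two_power_aleph0, ← Cardinal.power_mul,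
          Cardinal.aleph0_mul_eq (Cardinal.infinite_iff.1 inferInstance)]

end DualL1
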