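import Pool.Agent.Helper60.L1Full.Stmts
import Pool.Agent.Helper2.DualL1.Main

/-! COUNT: the pigeonhole and sign averaging argument. -/

namespace DualL1

open Filter Topology MeasureTheory Cardinal
open scoped ENNReal Classical

universe u v w

/-- norm of a combination of `L¹` functions as an integral -/
lemma COUNT_norm_sum {𝕜 : Type v} [RCLike 𝕜] {Ω : Type u} [MeasurableSpace Ω] {μ : Measure Ω}
    {J : Type*} [Fintype J] (a : J → 𝕜) (z : J → Lp 𝕜 1 μ) :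
    ‖∑ j, a j • z j‖ = ∫ x, ‖∑ j, a j * (z j : Ω → 𝕜) x‖ ∂μ := by
  rw [L1.norm_eq_integral_norm]
  refine integral_congr_ae ?_
  have h2 := Lp.coeFn_finsetSum Finset.univ (fun j : J => a j • z j)
  have h3 : ∀ᵐ x ∂μ, ∀ j : J, (a j • z j : Lp 𝕜 1 μ) x = a j * (z j : Ω → 𝕜) x := by
    rw [ae_all_iff]
    intro j
    filter_upwards [Lp.coeFn_smul (a j) (z j)] with x hx
    rw [hx]; rfl
  filter_upwards [h2, h3] with x hx2 hx3
  rw [hx2]
  simp only [Finset.sum_apply, hx3]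

/-- the upper bound for one choice of signs -/
lemma COUNT_upper {𝕜 : Type v} [RCLike 𝕜] {Ω : Type u} [MeasurableSpace Ω] {μ : Measure Ω}
    {J : Type*} [Fintype J] (ε : J → Bool) (z : J → Lp 𝕜 1 μ) (B : J → Set Ω)
    (hB : ∀ j, MeasurableSet (B j)) {η : ℝ}
    (hη : ∀ j, ∫ x in (B j)ᶜ, ‖(z j : Ω → 𝕜) x‖ ∂μ ≤ η) :
    ‖∑ j, ((sg (ε j) : ℝ) : 𝕜) • z j‖ ≤
      ∫ x, ‖∑ j, ((sg (ε j) : ℝ) : 𝕜) * (B j).indicator (z j : Ω → 𝕜) x‖ ∂μ
        + Fintype.card J * η := by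
  have hzi : ∀ j, Integrable (z j : Ω → 𝕜) μ := fun j => L1.integrable_coeFn _
  have hBint : ∀ j, Integrable ((B j).indicator (z j : Ω → 𝕜)) μ :=
    fun j => (hzi j).indicator (hB j)
  have hBcint : ∀ j, Integrable ((B j)ᶜ.indicator (z j : Ω → 𝕜)) μ :=
    fun j => (hzi j).indicator (hB j).compl
  have hpt : ∀ x, ‖∑ j, ((sg (ε j) : ℝ) : 𝕜) * (z j : Ω → 𝕜) x‖ ≤
      ‖∑ j, ((sg (ε j) : ℝ) : 𝕜) * (B j).indicator (z j : Ω → 𝕜) x‖
        + ∑ j, ‖(B j)ᶜ.indicator (z j : Ω → 𝕜) x‖ := by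
    intro x
    have h4 : ∑ j, ((sg (ε j) : ℝ) : 𝕜) * (z j : Ω → 𝕜) x
        = ∑ j, ((sg (ε j) : ℝ) : 𝕜) * (B j).indicator (z j : Ω → 𝕜) x
          + ∑ j, ((sg (ε j) : ℝ) : 𝕜) * (B j)ᶜ.indicator (z j : Ω → 𝕜) x := by
      rw [← Finset.sum_add_distrib]
      refine Finset.sum_congr rfl (fun j _ => ?_)
      rw [← mul_add]
      congr 1
      exact (congrFun (Set.indicator_self_add_compl (B j) (z j : Ω → 𝕜)) x).symm
    rw [h4]
    refine (norm_add_le _ _).trans (add_le_add le_rfl ?_)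
    refine (norm_sum_le _ _).trans (Finset.sum_le_sum (fun j _ => ?_))
    rw [norm_mul, RCLike.norm_ofReal, abs_sg, one_mul]
  have h5 : ∫ x, ∑ j, ‖(B j)ᶜ.indicator (z j : Ω → 𝕜) x‖ ∂μ ≤ Fintype.card J * η := by
    rw [integral_finsetSum _ (fun j _ => (hBcint j).norm)]
    have h6 : (Fintype.card J : ℝ) * η = ∑ j : J, η := by simp
    rw [h6]
    refine Finset.sum_le_sum (fun j _ => ?_)
    refine le_trans (le_of_eq ?_) (hη j)
    rw [← integral_indicator (hB j).compl]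
    refine integral_congr_ae (Eventually.of_forall (fun x => ?_))
    simp only
    rw [norm_indicator_eq_indicator_norm]
  rw [COUNT_norm_sum]
  have h8 : Integrable (fun x => ∑ j, ((sg (ε j) : ℝ) : 𝕜) *
      (B j).indicator (z j : Ω → 𝕜) x) μ :=
    integrable_finsetSum _ (fun j _ => (hBint j).const_mul _)
  have h9 : Integrable (fun x => ∑ j, ‖(B j)ᶜ.indicator (z j : Ω → 𝕜) x‖) μ :=
    integrable_finsetSum _ (fun j _ => (hBcint j).norm)
  calc ∫ x, ‖∑ j, ((sg (ε j) : ℝ) : 𝕜) * (z j : Ω → 𝕜) x‖ ∂μ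
      ≤ ∫ x, (‖∑ j, ((sg (ε j) : ℝ) : 𝕜) * (B j).indicator (z j : Ω → 𝕜) x‖
        + ∑ j, ‖(B j)ᶜ.indicator (z j : Ω → 𝕜) x‖) ∂μ := by
        refine integral_mono ?_ (h8.norm.add h9) hpt
        exact (integrable_finsetSum _ (fun j _ => (hzi j).const_mul _)).norm
    _ = _ := integral_add h8.norm h9
    _ ≤ _ := add_le_add le_rfl h5

/-- the final contradiction -/
lemma COUNT_core {𝕜 : Type v} [RCLike 𝕜] {Ω : Type u} [MeasurableSpace Ω] {μ : Measure Ω}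
    {A : Type*} (T : Set A) (hT : T.Infinite) (w : A → Lp 𝕜 1 μ) (B : A → Set Ω) (V : Set Ω)
    (M Λ : ℝ) (hM0 : 0 ≤ M) (hΛ : 0 ≤ Λ) (hV : MeasurableSet V) (hVf : μ V ≠ ∞)
    (hB : ∀ α, MeasurableSet (B α)) (hBV : ∀ α ∈ T, B α ⊆ V)
    (hBM : ∀ α ∈ T, ∀ x ∈ B α, ‖(w α : Ω → 𝕜) x‖ ≤ M)
    (hη : ∀ α, ∫ x in (B α)ᶜ, ‖(w α : Ω → 𝕜) x‖ ∂μ ≤ 1 / (2 * (Λ + 1)))
    (hlow : ∀ (s : Finset A) (_ : (s : Set A) ⊆ T) (ε : s → Bool),
      (s.card : ℝ) ≤ Λ * ‖∑ α : s, ((sg (ε α) : ℝ) : 𝕜) • w α‖) : False := by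
  set η : ℝ := 1 / (2 * (Λ + 1)) with hηd
  refine not_forall_mul_le (C := Λ * (M * μ.real V)) (half_pos one_pos) (fun K => ?_)
  obtain ⟨s, hs, hsK⟩ := hT.exists_subset_card_eq K
  have hwi : ∀ α, Integrable (w α : Ω → 𝕜) μ := fun α => L1.integrable_coeFn _
  have hup : ∀ ε : s → Bool, ‖∑ α : s, ((sg (ε α) : ℝ) : 𝕜) • w α‖ ≤
      ∫ x, ‖∑ α : s, ((sg (ε α) : ℝ) : 𝕜) * (B α).indicator (w α : Ω → 𝕜) x‖ ∂μ + K * η := by
    intro ε
    have := COUNT_upper ε (fun α : s => w α) (fun α : s => B α) (fun α => hB α)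
      (fun α => hη α)
    rwa [Fintype.card_coe, hsK] at this
  have hkh := sum_sign_integral_le (μ := μ) (J := s)
    (fun α => (B α).indicator (w α : Ω → 𝕜)) (fun α => (hwi α).indicator (hB α)) hV hVf
    (M := M) hM0 (by
      intro α x
      by_cases hx : x ∈ B α
      · rw [Set.indicator_of_mem hx]
        exact hBM α (hs α.2) x hx
      · rw [Set.indicator_of_notMem hx, norm_zero]
        exact hM0) (by
      intro α x hx
      exact Set.indicator_of_notMem (fun h => hx (hBV α (hs α.2) h)) _)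
  rw [Fintype.card_coe, hsK] at hkh
  have hcardε : (Fintype.card (s → Bool) : ℝ) = 2 ^ K := by
    rw [Fintype.card_fun, Fintype.card_bool, Fintype.card_coe, hsK]
    push_cast
    rfl
  have htot : (2 ^ K : ℝ) * K ≤ Λ * (2 ^ K * (M * Real.sqrt K * μ.real V)
      + 2 ^ K * (K * η)) := by
    calc (2 ^ K : ℝ) * K = ∑ ε : s → Bool, (K : ℝ) := by
          rw [Finset.sum_const, Finset.card_univ, nsmul_eq_mul, hcardε]
      _ ≤ ∑ ε : s → Bool, Λ * (∫ x, ‖∑ α : s, ((sg (ε α) : ℝ) : 𝕜) *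
            (B α).indicator (w α : Ω → 𝕜) x‖ ∂μ + K * η) := by
          refine Finset.sum_le_sum (fun ε _ => ?_)
          have h1 := hlow s hs ε
          rw [hsK] at h1
          exact h1.trans (mul_le_mul_of_nonneg_left (hup ε) hΛ)
      _ = Λ * (∑ ε : s → Bool, (∫ x, ‖∑ α : s, ((sg (ε α) : ℝ) : 𝕜) *
            (B α).indicator (w α : Ω → 𝕜) x‖ ∂μ) + 2 ^ K * (K * η)) := by
          rw [← Finset.mul_sum, Finset.sum_add_distrib, Finset.sum_const, Finset.card_univ,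
            nsmul_eq_mul, hcardε]
      _ ≤ _ := by
          exact mul_le_mul_of_nonneg_left (add_le_add hkh le_rfl) hΛ
  have h2K : (0 : ℝ) < 2 ^ K := by positivity
  have htot2 : (K : ℝ) ≤ Λ * (M * Real.sqrt K * μ.real V + K * η) := by
    have h1 : (2 ^ K : ℝ) * K ≤ 2 ^ K * (Λ * (M * Real.sqrt K * μ.real V + K * η)) := by
      calc _ ≤ _ := htot
        _ = _ := by ring
    exact le_of_mul_le_mul_left h1 h2K
  have hLη : Λ * η ≤ 1 / 2 := by
    rw [hηd]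
    have h1 : Λ * (1 / (2 * (Λ + 1))) = (1 / 2) * (Λ / (Λ + 1)) := by
      field_simp
    rw [h1]
    have h2 : Λ / (Λ + 1) ≤ 1 := by
      rw [div_le_one (by positivity)]; linarith
    nlinarith
  have hKη : Λ * (K * η) ≤ K * (1 / 2) := by
    calc Λ * (K * η) = K * (Λ * η) := by ring
      _ ≤ K * (1 / 2) := mul_le_mul_of_nonneg_left hLη (by positivity)
  have hfin : Λ * (M * Real.sqrt K * μ.real V + K * η)
      = Λ * (M * μ.real V) * Real.sqrt K + Λ * (K * η) := by ring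
  rw [hfin] at htot2
  linarith

/-- the number of data -/
lemma COUNT_card {Ω : Type u} (ℬ : Set (Set Ω)) (I : Type u) (hI : ℵ₀ < #I)
    (h : #ℬ < 2 ^ #I) : #(I × I × Finset ℬ × ℕ) < #(I → Bool) := by
  have hpow : #(I → Bool) = 2 ^ #I := by simp
  rw [hpow]
  have h0 : ℵ₀ ≤ 2 ^ #I := hI.le.trans (Cardinal.cantor _).le
  have h1 : #(Finset ℬ) < 2 ^ #I := by
    rcases finite_or_infinite ℬ with hf | hf
    · exact (Cardinal.lt_aleph0_of_finite _).trans_le h0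
    · rw [Cardinal.mk_finset_of_infinite]
      exact h
  rw [Cardinal.mk_prod, Cardinal.mk_prod, Cardinal.mk_prod]
  simp only [Cardinal.mk_nat, Cardinal.lift_aleph0, Cardinal.lift_id]
  refine Cardinal.mul_lt_of_lt h0 (Cardinal.cantor _) ?_
  refine Cardinal.mul_lt_of_lt h0 (Cardinal.cantor _) ?_
  refine Cardinal.mul_lt_of_lt h0 ?_ (hI.trans (Cardinal.cantor _))
  simpa using h1

theorem st_COUNT (hAVG : ST_AVG.{u, v, w}) (hSMALL : ST_SMALL.{u, v})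
    (hTRUNC : ST_TRUNC.{u, v}) : ST_COUNT.{u, v, w} := by
  intro 𝕜 _ Ω _ μ Y _ _ 𝒜 ℬ I he hI hAB hpair hcov hdens hL1K
  by_contra hcon
  rw [not_le] at hcon
  obtain ⟨e⟩ := he
  have hInf : Infinite I := Cardinal.infinite_iff.2 hI.le
  obtain ⟨C, y, hy, hz⟩ := hAVG 𝕜 I Y hInf hL1K
  choose z hz1 hz2 using hz
  set L : Lp 𝕜 1 μ →L[𝕜] (Y →L[𝕜] 𝕜) := (e : Lp 𝕜 1 μ →L[𝕜] (Y →L[𝕜] 𝕜)) with hL
  set R : (Y →L[𝕜] 𝕜) →L[𝕜] Lp 𝕜 1 μ := (e.symm : (Y →L[𝕜] 𝕜) →L[𝕜] Lp 𝕜 1 μ) with hR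
  have hLR : ∀ g, L (R g) = g := fun g => e.apply_symm_apply g
  set η : ℝ := 1 / (2 * (‖L‖ + 1)) with hη
  have hη0 : 0 < η := by positivity
  have hη3 : 0 < η / 3 := by positivity
  -- small differences
  have hsm : ∀ α : I → Bool, ∃ ξ η' : I, ξ ≠ η' ∧ ∀ G : Finset (Set Ω), (∀ A ∈ G, A ∈ 𝒜) →
      ∑ A ∈ G, ∫ x in A, ‖((R (z α ξ) - R (z α η') : Lp 𝕜 1 μ) : Ω → 𝕜) x‖ ∂μ ≤ η / 3 := by
    intro α
    refine hSMALL 𝕜 μ 𝒜 I (‖R‖ * C) (fun i => R (z α i)) hI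
      (fun A hA => (hAB A (Or.inl hA)).1) (hpair.mono Set.subset_union_left) hdens ?_ (η / 3) hη3
    intro G a ha
    have h1 : ∑ i ∈ G, a i • R (z α i) = R (∑ i ∈ G, a i • z α i) := by
      simp only [map_sum, map_smul]
    rw [h1]
    calc ‖R (∑ i ∈ G, a i • z α i)‖ ≤ ‖R‖ * ‖∑ i ∈ G, a i • z α i‖ := R.le_opNorm _
      _ ≤ ‖R‖ * (C * Real.sqrt G.card) :=
        mul_le_mul_of_nonneg_left (hz2 α G a ha) (norm_nonneg R)
      _ = _ := by ring
  choose ξ ζ hne hsm using hsm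
  set w : (I → Bool) → Lp 𝕜 1 μ := fun α => R (z α (ξ α)) - R (z α (ζ α)) with hw
  have hTr : ∀ α, ∃ (F : Finset ℬ) (M : ℕ) (B : Set Ω), MeasurableSet B ∧
      B ⊆ ⋃ A ∈ F, (A : Set Ω) ∧ (∀ x ∈ B, ‖(w α : Ω → 𝕜) x‖ ≤ M) ∧
      ∫ x in Bᶜ, ‖(w α : Ω → 𝕜) x‖ ∂μ ≤ 3 * (η / 3) := fun α =>
    hTRUNC 𝕜 μ 𝒜 ℬ (w α) (η / 3) hη3 (fun A hA => (hAB A hA).1) hcov (hsm α)
  choose F M B hB hBF hBM hBη using hTr
  -- pigeonhole
  obtain ⟨p, hp⟩ := Cardinal.exists_infinite_fiber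
    (fun α : I → Bool => (ξ α, ζ α, F α, M α)) (COUNT_card ℬ I hI hcon)
  obtain ⟨ξ₀, ζ₀, F₀, M₀⟩ := p
  set T : Set (I → Bool) := {α | (ξ α, ζ α, F α, M α) = (ξ₀, ζ₀, F₀, M₀)} with hTdef
  have hT : T.Infinite := Set.infinite_coe_iff.1 hp
  have hTm : ∀ α ∈ T, ξ α = ξ₀ ∧ ζ α = ζ₀ ∧ F α = F₀ ∧ M α = M₀ := by
    intro α hα
    simp only [hTdef, Set.mem_ofPred_eq, Prod.mk.injEq] at hα
    exact hα
  set V : Set Ω := ⋃ A ∈ F₀, (A : Set Ω) with hV
  have hVm : MeasurableSet V :=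
    Finset.measurableSet_biUnion F₀ (fun A _ => (hAB A (Or.inr A.2)).1)
  have hVf : μ V ≠ ∞ := by
    refine (lt_of_le_of_lt (measure_biUnion_finset_le F₀ _) ?_).ne
    exact ENNReal.sum_lt_top.2 (fun A _ => (hAB A (Or.inr A.2)).2.lt_top)
  refine COUNT_core T hT w B V M₀ ‖L‖ (by positivity) (norm_nonneg L) hVm hVf hB ?_ ?_ ?_ ?_
  · intro α hα
    have := hBF α
    rwa [(hTm α hα).2.2.1] at this
  · intro α hα x hx
    have := hBM α x hx
    rwa [(hTm α hα).2.2.2] at this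
  · intro α
    have := hBη α
    rwa [show 3 * (η / 3) = η by ring] at this
  · intro s hs ε
    -- a finite set separating the elements of `s`
    have hsep : ∃ E : Finset I, ∀ α ∈ s, ∀ β ∈ s, α ≠ β →
        E.filter (fun i => α i = true) ≠ E.filter (fun i => β i = true) := by
      have h1 : ∀ p : (I → Bool) × (I → Bool), ∃ k : I, p.1 ≠ p.2 → p.1 k ≠ p.2 k := by
        intro p
        by_cases h : p.1 = p.2
        · exact ⟨ξ₀, fun h' => absurd h h'⟩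
        · obtain ⟨k, hk⟩ := Function.ne_iff.1 h
          exact ⟨k, fun _ => hk⟩
      choose K hK using h1
      refine ⟨(s ×ˢ s).image K, fun α hα β hβ hne heq => ?_⟩
      have h2 : K (α, β) ∈ (s ×ˢ s).image K :=
        Finset.mem_image_of_mem K (Finset.mk_mem_product hα hβ)
      have h3 := hK (α, β) hne
      have h4 : K (α, β) ∈ ((s ×ˢ s).image K).filter (fun i => α i = true) ↔
          K (α, β) ∈ ((s ×ˢ s).image K).filter (fun i => β i = true) := by rw [heq]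
      rw [Finset.mem_filter, Finset.mem_filter] at h4
      apply h3
      have h5 : (α (K (α, β)) = true ↔ β (K (α, β)) = true) :=
        ⟨fun h => (h4.1 ⟨h2, h⟩).2, fun h => (h4.2 ⟨h2, h⟩).2⟩
      exact Bool.eq_iff_iff.2 h5
    obtain ⟨E, hE⟩ := hsep
    set 𝒮 : Finset (Finset I) :=
      ((Finset.univ : Finset s).filter (fun α => ε α = true)).image
        (fun α => E.filter (fun i => α.1 i = true)) with h𝒮
    have hmem : ∀ α : s, (E.filter (fun i => α.1 i = true) ∈ 𝒮 ↔ ε α = true) := by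
      intro α
      rw [h𝒮, Finset.mem_image]
      constructor
      · rintro ⟨β, hβ, hβα⟩
        rw [Finset.mem_filter] at hβ
        by_contra hne
        have hne' : β.1 ≠ α.1 := by
          intro h
          have : β = α := Subtype.ext h
          rw [this] at hβ
          exact hne hβ.2
        exact hE β.1 β.2 α.1 α.2 hne' hβα
      · intro h
        exact ⟨α, Finset.mem_filter.2 ⟨Finset.mem_univ _, h⟩, rfl⟩
    have h1 : (s.card : ℝ) = RCLike.re ((L (∑ α : s, ((sg (ε α) : ℝ) : 𝕜) • w α))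
        (y E 𝒮 ξ₀)) := by
      rw [map_sum, _root_.sum_apply, map_sum]
      have h2 : (s.card : ℝ) = ∑ α : s, (1 : ℝ) := by simp
      rw [h2]
      refine Finset.sum_congr rfl (fun α _ => ?_)
      rw [map_smul, _root_.smul_apply, smul_eq_mul, RCLike.re_ofReal_mul]
      have hTα := hTm α.1 (hs α.2)
      have h3 : L (w α.1) = z α.1 ξ₀ - z α.1 ζ₀ := by
        simp only [hw]
        rw [map_sub, hLR, hLR, hTα.1, hTα.2.1]
      rw [h3, _root_.sub_apply, map_sub, hz1, hz1, if_pos rfl]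
      have h4 : ζ₀ ≠ ξ₀ := by
        rw [← hTα.1, ← hTα.2.1]
        exact (hne α.1).symm
      rw [if_neg h4, sub_zero]
      by_cases h5 : ε α = true
      · rw [if_pos ((hmem α).2 h5), h5]
        simp
      · rw [if_neg (fun h => h5 ((hmem α).1 h))]
        rw [Bool.not_eq_true] at h5
        rw [h5]
        simp
    calc (s.card : ℝ) = _ := h1
      _ ≤ ‖(L (∑ α : s, ((sg (ε α) : ℝ) : 𝕜) • w α)) (y E 𝒮 ξ₀)‖ := RCLike.re_le_norm _
      _ ≤ ‖L (∑ α : s, ((sg (ε α) : ℝ) : 𝕜) • w α)‖ * ‖y E 𝒮 ξ₀‖ :=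
          ContinuousLinearMap.le_opNorm _ _
      _ ≤ ‖L (∑ α : s, ((sg (ε α) : ℝ) : 𝕜) • w α)‖ * 1 :=
          mul_le_mul_of_nonneg_left (hy _ _ _) (norm_nonneg _)
      _ = ‖L (∑ α : s, ((sg (ε α) : ℝ) : 𝕜) • w α)‖ := mul_one _
      _ ≤ _ := L.le_opNorm _

end DualL1
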