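import Pool.Agent.Helper60.L1Full.Stmts
import Pool.Agent.Helper2.DualL1.Decomp

/-! DEC: `L¹(μ)` is the `ℓ¹`-sum of the pieces. -/

namespace DualL1

open Filter Topology MeasureTheory Cardinal
open scoped ENNReal Classical

universe u v w

lemma DEC_meas {Ω : Type u} [MeasurableSpace Ω] {μ : Measure Ω} {𝒟 : Set (Set Ω)}
    (h : IsHFam μ 𝒟) {A : Set Ω} (hA : A ∈ 𝒟) : MeasurableSet A := by
  rcases h.1 A hA with h | ⟨κ, _, h⟩
  · exact h.1.1
  · exact h.1.1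

theorem st_DEC : ST_DEC.{u, v} := by
  intro 𝕜 _ Ω _ μ 𝒟 h𝒟
  refine ⟨fun A => extL μ 𝕜 (DEC_meas h𝒟 A.2), ?_, ?_⟩
  · intro S x
    rw [norm_sum_of_disjoint]
    · exact Finset.sum_congr rfl (fun A _ => LinearIsometry.norm_map _ _)
    · intro A _ B _ hAB
      have hne : (A : Set Ω) ≠ B := fun h => hAB (Subtype.ext h)
      exact ae_zero_or (h𝒟.2.1 A.2 B.2 hne) (extL_zero_off _ _) (extL_zero_off _ _)
  · intro M hM h
    refine eq_top_of_family 𝒟 (fun A hA => DEC_meas h𝒟 hA) h𝒟.2.2 M hM (fun A hA f hf => ?_)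
    have h1 := h ⟨A, hA⟩ (tl (μ.restrict A) f)
    rw [extL_tl (DEC_meas h𝒟 hA) hf] at h1
    exact h1

end DualL1
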