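import Pool.Agent.Helper60.L1Full.Stmts
import Pool.Agent.Helper2.DualL1.Decomp

/-! DENS: the density of `L¹` of a generated set. -/

namespace DualL1

open Filter Topology MeasureTheory Cardinal
open scoped ENNReal Classical

universe u v w

section

variable {Ω : Type u} [MeasurableSpace Ω] {ν : Measure Ω} [IsFiniteMeasure ν] {𝕜 : Type v}
  [RCLike 𝕜]

/-- the class of sets whose indicator lies in `M` is closed under complements -/
lemma DENS_compl (M : Submodule 𝕜 (Lp 𝕜 1 ν)) (huniv : tl ν (fun _ => (1 : 𝕜)) ∈ M)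
    {B : Set Ω} (hB : MeasurableSet B) (h : tl ν (B.indicator (fun _ => (1 : 𝕜))) ∈ M) :
    tl ν (Bᶜ.indicator (fun _ => (1 : 𝕜))) ∈ M := by
  have h1 : Integrable (fun _ : Ω => (1 : 𝕜)) ν := integrable_const _
  have h2 : Bᶜ.indicator (fun _ => (1 : 𝕜)) = (fun _ => (1 : 𝕜)) - B.indicator (fun _ => (1 : 𝕜)) :=
    Set.indicator_compl _ _
  rw [h2, tl_sub h1 (h1.indicator hB)]
  exact M.sub_mem huniv h

/-- increasing unions -/
lemma DENS_iUnion (M : Submodule 𝕜 (Lp 𝕜 1 ν)) (hM : IsClosed (M : Set (Lp 𝕜 1 ν)))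
    (B : ℕ → Set Ω) (hB : ∀ n, MeasurableSet (B n)) (hd : Pairwise (Function.onFun Disjoint B))
    (h : ∀ n, tl ν ((B n).indicator (fun _ => (1 : 𝕜))) ∈ M) :
    tl ν ((⋃ n, B n).indicator (fun _ => (1 : 𝕜))) ∈ M := by
  have h1 : Integrable (fun _ : Ω => (1 : 𝕜)) ν := integrable_const _
  have hU : MeasurableSet (⋃ n, B n) := MeasurableSet.iUnion hB
  have hA : ∀ n, MeasurableSet (⋃ i < n, B i) := fun n =>
    MeasurableSet.iUnion (fun i => MeasurableSet.iUnion (fun _ => hB i))
  have hfin : ∀ n, tl ν ((⋃ i < n, B i).indicator (fun _ => (1 : 𝕜))) ∈ M := by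
    intro n
    induction n with
    | zero =>
      have : (⋃ i < 0, B i) = ∅ := by simp
      rw [this, Set.indicator_empty, zero_tl]
      exact M.zero_mem
    | succ n ih =>
      have h2 : (⋃ i < n + 1, B i) = (⋃ i < n, B i) ∪ B n := by
        ext x
        simp only [Set.mem_iUnion, Set.mem_union, exists_prop]
        constructor
        · rintro ⟨i, hi, hx⟩
          rcases Nat.lt_succ_iff_lt_or_eq.1 hi with h | h
          · exact Or.inl ⟨i, h, hx⟩
          · exact Or.inr (h ▸ hx)
        · rintro (⟨i, hi, hx⟩ | hx)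
          · exact ⟨i, hi.trans (Nat.lt_succ_self n), hx⟩
          · exact ⟨n, Nat.lt_succ_self n, hx⟩
      have h3 : Disjoint (⋃ i < n, B i) (B n) := by
        rw [Set.disjoint_left]
        intro x hx hx'
        simp only [Set.mem_iUnion, exists_prop] at hx
        obtain ⟨i, hi, hx⟩ := hx
        exact (Set.disjoint_left.1 (hd hi.ne)) hx hx'
      rw [h2, Set.indicator_union_of_disjoint h3]
      have h4 := tl_add (h1.indicator (hA n)) (h1.indicator (hB n))
      have h5 : tl ν (fun a => (⋃ i < n, B i).indicator (fun _ => (1 : 𝕜)) a +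
          (B n).indicator (fun _ => (1 : 𝕜)) a) =
          tl ν ((⋃ i < n, B i).indicator (fun _ => (1 : 𝕜))) +
            tl ν ((B n).indicator (fun _ => (1 : 𝕜))) := h4
      rw [h5]
      exact M.add_mem ih (h n)
  have hlim : Tendsto (fun n => tl ν ((⋃ i < n, B i).indicator (fun _ => (1 : 𝕜)))) atTop
      (𝓝 (tl ν ((⋃ n, B n).indicator (fun _ => (1 : 𝕜))))) := by
    rw [tendsto_iff_norm_sub_tendsto_zero]
    have h2 : ∀ n, ‖tl ν ((⋃ i < n, B i).indicator (fun _ => (1 : 𝕜))) -
        tl ν ((⋃ n, B n).indicator (fun _ => (1 : 𝕜)))‖ =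
        ν.real (⋃ n, B n) - ν.real (⋃ i < n, B i) := by
      intro n
      have hsub : (⋃ i < n, B i) ⊆ ⋃ n, B n := by
        intro x hx
        simp only [Set.mem_iUnion, exists_prop] at hx ⊢
        obtain ⟨i, _, hx⟩ := hx
        exact ⟨i, hx⟩
      rw [← tl_sub (h1.indicator (hA n)) (h1.indicator hU),
        norm_tl ((h1.indicator (hA n)).sub (h1.indicator hU))]
      have h3 : ∀ x, ‖((⋃ i < n, B i).indicator (fun _ => (1 : 𝕜)) -
          (⋃ n, B n).indicator (fun _ => (1 : 𝕜))) x‖ =
          ((⋃ n, B n) \ (⋃ i < n, B i)).indicator (fun _ => (1 : ℝ)) x := by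
        intro x
        rw [Pi.sub_apply]
        by_cases hx : x ∈ ⋃ i < n, B i
        · rw [Set.indicator_of_mem hx, Set.indicator_of_mem (hsub hx),
            Set.indicator_of_notMem (fun h => h.2 hx)]
          simp
        · rw [Set.indicator_of_notMem hx]
          by_cases hx' : x ∈ ⋃ n, B n
          · rw [Set.indicator_of_mem hx', Set.indicator_of_mem
              (show x ∈ (⋃ n, B n) \ (⋃ i < n, B i) from ⟨hx', hx⟩)]
            simp
          · rw [Set.indicator_of_notMem hx', Set.indicator_of_notMem (fun h => hx' h.1)]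
            simp
      simp_rw [h3]
      rw [integral_indicator_const _ (hU.diff (hA n)), smul_eq_mul, mul_one,
        measureReal_sdiff hsub (hA n)]
    simp_rw [h2]
    have h3 : Tendsto (fun n => ν.real (⋃ i < n, B i)) atTop (𝓝 (ν.real (⋃ n, B n))) := by
      have h4 : Tendsto (fun n => ν (⋃ i < n, B i)) atTop (𝓝 (ν (⋃ n, ⋃ i < n, B i))) := by
        apply tendsto_measure_iUnion_atTop
        intro m n hmn x hx
        simp only [Set.mem_iUnion, exists_prop] at hx ⊢
        obtain ⟨i, hi, hx⟩ := hx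
        exact ⟨i, hi.trans_le hmn, hx⟩
      have h5 : (⋃ n, ⋃ i < n, B i) = ⋃ n, B n := by
        ext x
        simp only [Set.mem_iUnion, exists_prop]
        constructor
        · rintro ⟨n, i, _, hx⟩
          exact ⟨i, hx⟩
        · rintro ⟨i, hx⟩
          exact ⟨i + 1, i, Nat.lt_succ_self i, hx⟩
      rw [h5] at h4
      exact (ENNReal.tendsto_toReal (measure_ne_top _ _)).comp h4
    have h6 := h3.const_sub (ν.real (⋃ n, B n))
    rwa [sub_self] at h6
  exact hM.mem_of_tendsto hlim (Eventually.of_forall hfin)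

end

/-- the finite intersections -/
def DENS_int {Ω : Type u} {𝒢 : Set (Set Ω)} (F : Finset 𝒢) : Set Ω := ⋂ G ∈ F, (G : Set Ω)

/-- the countable dense subset of the scalars -/
noncomputable def DENS_q (𝕜 : Type v) [RCLike 𝕜] (q : ℚ × ℚ) : 𝕜 :=
  ((q.1 : ℝ) : 𝕜) + ((q.2 : ℝ) : 𝕜) * RCLike.I

lemma DENS_q_dense (𝕜 : Type v) [RCLike 𝕜] : DenseRange (DENS_q 𝕜) := by
  have h1 : Continuous (fun r : ℝ × ℝ => ((r.1 : ℝ) : 𝕜) + ((r.2 : ℝ) : 𝕜) * RCLike.I) := by
    have hc : Continuous (fun r : ℝ => (r : 𝕜)) := RCLike.continuous_ofReal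
    exact (hc.comp continuous_fst).add ((hc.comp continuous_snd).mul continuous_const)
  have h2 : Function.Surjective
      (fun r : ℝ × ℝ => ((r.1 : ℝ) : 𝕜) + ((r.2 : ℝ) : 𝕜) * RCLike.I) := by
    intro z
    exact ⟨(RCLike.re z, RCLike.im z), RCLike.re_add_im z⟩
  have h3 : DenseRange (fun q : ℚ × ℚ => ((q.1 : ℝ), (q.2 : ℝ))) :=
    Rat.denseRange_cast.prodMap Rat.denseRange_cast
  exact h2.denseRange.comp h3 h1

theorem st_DENS : ST_DENS.{u, v} := by
  intro 𝕜 _ Ω _ μ A 𝒢 hA hAt h𝒢 hgen
  have hfin : IsFiniteMeasure (μ.restrict A) := ⟨by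
    rw [Measure.restrict_apply_univ]; exact hAt.lt_top⟩
  set ν : Measure Ω := μ.restrict A with hν
  have hone : Integrable (fun _ : Ω => (1 : 𝕜)) ν := integrable_const _
  set e : Finset 𝒢 → Lp 𝕜 1 ν := fun F => tl ν ((DENS_int F).indicator (fun _ => (1 : 𝕜))) with he
  have hint : ∀ F : Finset 𝒢, MeasurableSet (DENS_int F) := fun F =>
    Finset.measurableSet_biInter F (fun G _ => h𝒢 G G.2)
  -- the index type
  set d : List (Finset 𝒢 × ℚ × ℚ) → Lp 𝕜 1 ν :=
    fun l => (l.map (fun t => DENS_q 𝕜 t.2 • e t.1)).sum with hd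
  refine ⟨List (Finset 𝒢 × ℚ × ℚ), d, ?_, ?_⟩
  · have h1 : #(Finset 𝒢) ≤ max #𝒢 ℵ₀ := by
      rcases finite_or_infinite 𝒢 with hf | hf
      · exact (Cardinal.lt_aleph0_of_finite _).le.trans (le_max_right _ _)
      · rw [Cardinal.mk_finset_of_infinite]
        exact le_max_left _ _
    refine (Cardinal.mk_list_le_max _).trans (max_le (le_max_right _ _) ?_)
    rw [Cardinal.mk_prod, Cardinal.lift_uzero, Cardinal.mk_prod]
    simp only [Cardinal.mkRat, Cardinal.lift_aleph0, Cardinal.aleph0_mul_aleph0,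
      Cardinal.lift_uzero]
    refine (Cardinal.mul_le_max _ _).trans ?_
    refine max_le (max_le h1 (le_max_right _ _)) (le_max_right _ _)
  · -- the closure of the range
    let T : AddSubmonoid (Lp 𝕜 1 ν) :=
      { carrier := Set.range d
        add_mem' := by
          rintro _ _ ⟨l, rfl⟩ ⟨l', rfl⟩
          exact ⟨l ++ l', by simp [hd]⟩
        zero_mem' := ⟨[], by simp [hd]⟩ }
    have hTc : ∀ (c : 𝕜) (F : Finset 𝒢), c • e F ∈ T.topologicalClosure := by
      intro c F
      have hcont : Continuous (fun c : 𝕜 => c • e F) := continuous_id.smul continuous_const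
      have h1 : c ∈ closure (Set.range (DENS_q 𝕜)) := DENS_q_dense 𝕜 c
      have h2 : (fun c : 𝕜 => c • e F) c ∈ closure (T : Set (Lp 𝕜 1 ν)) := by
        refine map_mem_closure (f := fun c : 𝕜 => c • e F) hcont h1 ?_
        rintro _ ⟨q, rfl⟩
        exact ⟨[(F, q)], by simp [hd]⟩
      exact h2
    have hspan : (Submodule.span 𝕜 (Set.range e)).toAddSubmonoid ≤ T.topologicalClosure := by
      rw [Submodule.span_eq_closure, AddSubmonoid.closure_le]
      rintro _ ⟨c, _, _, ⟨F, rfl⟩, rfl⟩
      exact hTc c F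
    set M : Submodule 𝕜 (Lp 𝕜 1 ν) := (Submodule.span 𝕜 (Set.range e)).topologicalClosure with hM
    have hMc : IsClosed (M : Set (Lp 𝕜 1 ν)) := Submodule.isClosed_topologicalClosure _
    have hMT : (M : Set (Lp 𝕜 1 ν)) ⊆ closure (Set.range d) := by
      have h1 : ((Submodule.span 𝕜 (Set.range e) : Submodule 𝕜 (Lp 𝕜 1 ν)) : Set (Lp 𝕜 1 ν)) ⊆
          closure (Set.range d) := fun x hx => hspan hx
      exact closure_minimal h1 isClosed_closure
    have hMe : ∀ F, e F ∈ M := fun F =>
      Submodule.le_topologicalClosure _ (Submodule.subset_span ⟨F, rfl⟩)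
    have huniv : tl ν (fun _ => (1 : 𝕜)) ∈ M := by
      have h1 := hMe ∅
      have h2 : (DENS_int (∅ : Finset 𝒢)).indicator (fun _ => (1 : 𝕜)) = fun _ => (1 : 𝕜) := by
        funext x
        simp [DENS_int]
      rw [he] at h1
      simp only at h1
      rw [h2] at h1
      exact h1
    have hkey : ∀ G, MeasurableSet[MeasurableSpace.generateFrom 𝒢] G →
        tl ν (G.indicator (fun _ => (1 : 𝕜))) ∈ M := by
      have hle : MeasurableSpace.generateFrom 𝒢 ≤ (inferInstance : MeasurableSpace Ω) :=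
        MeasurableSpace.generateFrom_le h𝒢
      have hgeq : MeasurableSpace.generateFrom 𝒢 =
          MeasurableSpace.generateFrom (Set.range (DENS_int (𝒢 := 𝒢))) := by
        apply le_antisymm
        · apply MeasurableSpace.generateFrom_le
          intro G hG
          apply MeasurableSpace.measurableSet_generateFrom
          exact ⟨{⟨G, hG⟩}, by simp [DENS_int]⟩
        · apply MeasurableSpace.generateFrom_le
          rintro _ ⟨F, rfl⟩
          exact Finset.measurableSet_biInter F
            (fun G _ => MeasurableSpace.measurableSet_generateFrom G.2)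
      have hpi : IsPiSystem (Set.range (DENS_int (𝒢 := 𝒢))) := by
        rintro _ ⟨F, rfl⟩ _ ⟨F', rfl⟩ _
        refine ⟨F ∪ F', ?_⟩
        ext x
        simp only [DENS_int, Set.mem_inter_iff, Set.mem_iInter, Finset.mem_union]
        exact ⟨fun h => ⟨fun G hG => h G (Or.inl hG), fun G hG => h G (Or.inr hG)⟩,
          fun h G hG => hG.elim (h.1 G) (h.2 G)⟩
      intro G hG
      induction G, hG using MeasurableSpace.induction_on_inter hgeq hpi with
      | empty => rw [Set.indicator_empty, zero_tl]; exact M.zero_mem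
      | basic t ht =>
        obtain ⟨F, rfl⟩ := ht
        exact hMe F
      | compl t ht ih => exact DENS_compl M huniv (hle _ ht) ih
      | iUnion f hdisj hf ih => exact DENS_iUnion M hMc f (fun n => hle _ (hf n)) hdisj ih
    have htop : M = ⊤ := by
      refine eq_top_of_ind M hMc (fun B hB hBt => ?_)
      rw [ind_eq_tl hB hBt]
      obtain ⟨G, hG, hBG⟩ := hgen (B ∩ A) Set.inter_subset_right (hB.inter hA)
      have h1 : B.indicator (fun _ => (1 : 𝕜)) =ᵐ[ν] G.indicator (fun _ => (1 : 𝕜)) := by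
        rw [hν, Filter.EventuallyEq, ae_restrict_iff' hA]
        filter_upwards [measure_eq_zero_iff_ae_notMem.1 hBG] with x hx hxA
        by_cases hxB : x ∈ B
        · by_cases hxG : x ∈ G
          · rw [Set.indicator_of_mem hxB, Set.indicator_of_mem hxG]
          · exact absurd (Or.inl ⟨⟨hxB, hxA⟩, fun h => hxG h.1⟩) hx
        · by_cases hxG : x ∈ G
          · exact absurd (Or.inr ⟨⟨hxG, hxA⟩, fun h => hxB h.1⟩) hx
          · rw [Set.indicator_of_notMem hxB, Set.indicator_of_notMem hxG]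
      rw [tl_congr h1]
      exact hkey G hG
    intro x
    have hx : x ∈ M := by rw [htop]; exact Submodule.mem_top
    exact hMT hx

end DualL1
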