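import Pool.Agent.Helper60.L1Full.Stmts
import Pool.Agent.Helper2.DualL1.Schur

/-! TRUNC: truncation of an `L¹` function which is small on the pieces of `𝒜`. -/

namespace DualL1

open Filter Topology MeasureTheory Cardinal
open scoped ENNReal Classical

universe u v w

/-- the integral over a finite union -/
lemma TRUNC_union_le {𝕜 : Type v} [RCLike 𝕜] {Ω : Type u} [MeasurableSpace Ω] {μ : Measure Ω}
    {f : Ω → 𝕜} (hf : Integrable f μ) (G : Finset (Set Ω)) (hG : ∀ A ∈ G, MeasurableSet A) :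
    ∫ x in ⋃ A ∈ G, A, ‖f x‖ ∂μ ≤ ∑ A ∈ G, ∫ x in A, ‖f x‖ ∂μ := by
  induction G using Finset.induction_on with
  | empty => simp
  | @insert A G hA ih =>
    rw [Finset.set_biUnion_insert, Finset.sum_insert hA]
    refine (int_union_le hf (hG A (Finset.mem_insert_self _ _)) ?_).trans ?_
    · exact Finset.measurableSet_biUnion G (fun B hB => hG B (Finset.mem_insert_of_mem hB))
    · exact add_le_add le_rfl (ih (fun B hB => hG B (Finset.mem_insert_of_mem hB)))

theorem st_TRUNC : ST_TRUNC.{u, v} := by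
  intro 𝕜 _ Ω _ μ 𝒜 ℬ w ε hε hm hcov hsmall
  have hwm : Measurable (w : Ω → 𝕜) := (Lp.stronglyMeasurable _).measurable
  have hwi : Integrable (w : Ω → 𝕜) μ := L1.integrable_coeFn _
  have hfin : IsFiniteMeasure (μ.withDensity (fun x => ‖(w : Ω → 𝕜) x‖ₑ)) :=
    isFiniteMeasure_withDensity hwi.2.ne
  have hUm : ∀ G : Finset (Set Ω), (∀ A ∈ G, A ∈ 𝒜) → MeasurableSet (⋃ A ∈ G, A) := fun G hG =>
    Finset.measurableSet_biUnion G (fun A hA => hm A (Or.inl (hG A hA)))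
  obtain ⟨B, ⟨G, hG, F, M, B', hB'm, hB'F, hB'M, rfl⟩, hB⟩ := exhaust
    (μ.withDensity (fun x => ‖(w : Ω → 𝕜) x‖ₑ))
    {B | ∃ (G : Finset (Set Ω)) (_ : ∀ A ∈ G, A ∈ 𝒜) (F : Finset ℬ) (M : ℕ) (B' : Set Ω),
      MeasurableSet B' ∧ B' ⊆ (⋃ A ∈ F, (A : Set Ω)) ∧ (∀ x ∈ B', ‖(w : Ω → 𝕜) x‖ ≤ M) ∧
        B = (⋃ A ∈ G, A) ∪ B'}
    ⟨∅, by simp, ∅, 0, ∅, MeasurableSet.empty, by simp, by simp, by simp⟩ (by
      rintro _ ⟨G, hG, F, M, B, hB, hBF, hBM, rfl⟩ _ ⟨G', hG', F', M', B', hB', hBF', hBM', rfl⟩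
      refine ⟨G ∪ G', ?_, F ∪ F', max M M', B ∪ B', hB.union hB', ?_, ?_, ?_⟩
      · intro A hA
        rcases Finset.mem_union.1 hA with h | h
        · exact hG A h
        · exact hG' A h
      · rw [Finset.set_biUnion_union]
        exact Set.union_subset_union hBF hBF'
      · rintro x (hx | hx)
        · exact (hBM x hx).trans (by exact_mod_cast le_max_left M M')
        · exact (hBM' x hx).trans (by exact_mod_cast le_max_right M M')
      · rw [Finset.set_biUnion_union]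
        ext x
        simp only [Set.mem_union]
        tauto) (by
      rintro _ ⟨G, hG, F, M, B, hB, hBF, hBM, rfl⟩
      exact (hUm G hG).union hB) (by
      intro V hV hpos
      -- a part of finite measure on which `w` is bounded and bounded away from zero
      have hex : ∃ k M : ℕ, 0 < μ (V ∩ {x | 1 / ((k : ℝ) + 1) ≤ ‖(w : Ω → 𝕜) x‖}
          ∩ {x | ‖(w : Ω → 𝕜) x‖ ≤ M}) := by
        by_contra hcon
        push Not at hcon
        rw [withDensity_apply _ hV, setLIntegral_pos_iff hwm.enorm] at hpos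
        have h1 : μ (⋃ k : ℕ, ⋃ M : ℕ, V ∩ {x | 1 / ((k : ℝ) + 1) ≤ ‖(w : Ω → 𝕜) x‖}
            ∩ {x | ‖(w : Ω → 𝕜) x‖ ≤ M}) = 0 :=
          measure_iUnion_null (fun k => measure_iUnion_null
            (fun M => nonpos_iff_eq_zero.1 (hcon k M)))
        refine hpos.ne' (measure_mono_null ?_ h1)
        rintro x ⟨hx, hxV⟩
        have hx0 : (w : Ω → 𝕜) x ≠ 0 := by
          intro h0
          simp [Function.mem_support, h0] at hx
        obtain ⟨k, hk⟩ := exists_nat_one_div_lt (norm_pos_iff.2 hx0)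
        obtain ⟨M, hM⟩ := exists_nat_ge ‖(w : Ω → 𝕜) x‖
        exact Set.mem_iUnion.2 ⟨k, Set.mem_iUnion.2 ⟨M, ⟨hxV, hk.le⟩, hM⟩⟩
      obtain ⟨k, M, hkM⟩ := hex
      have hk0 : (0 : ℝ) < 1 / ((k : ℝ) + 1) := by positivity
      set E : Set Ω := V ∩ {x | 1 / ((k : ℝ) + 1) ≤ ‖(w : Ω → 𝕜) x‖}
          ∩ {x | ‖(w : Ω → 𝕜) x‖ ≤ M} with hE
      have hEm : MeasurableSet E :=
        (hV.inter (measurableSet_le measurable_const hwm.norm)).inter
          (measurableSet_le hwm.norm measurable_const)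
      have hEt : μ E ≠ ∞ := by
        refine measure_ne_top_of_subset (s := {x | 1 / ((k : ℝ) + 1) ≤ ‖(w : Ω → 𝕜) x‖})
          (fun x hx => hx.1.2) (hwi.measure_norm_ge_lt_top hk0).ne
      obtain ⟨A, hA, hAE⟩ := hcov E hEm hkM hEt
      have hkey : ∀ D : Set Ω, MeasurableSet D → A ∩ E ⊆ D →
          0 < (μ.withDensity (fun x => ‖(w : Ω → 𝕜) x‖ₑ)) (D ∩ V) := by
        intro D hD hAD
        rw [withDensity_apply _ (hD.inter hV), setLIntegral_pos_iff hwm.enorm]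
        refine lt_of_lt_of_le (pos_iff_ne_zero.2 hAE) (measure_mono ?_)
        intro x hx
        refine ⟨?_, hAD hx, hx.2.1.1⟩
        have h2 : (1 : ℝ) / ((k : ℝ) + 1) ≤ ‖(w : Ω → 𝕜) x‖ := hx.2.1.2
        have h3 : (w : Ω → 𝕜) x ≠ 0 := norm_pos_iff.1 (hk0.trans_le h2)
        simp only [Function.mem_support, ne_eq, enorm_eq_zero]
        exact h3
      rcases hA with hA | hA
      · refine ⟨A, ⟨{A}, by simpa using hA, ∅, 0, ∅, MeasurableSet.empty, by simp, by simp,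
          by simp⟩, ?_⟩
        exact hkey A (hm A (Or.inl hA)) Set.inter_subset_left
      · have hAm := hm A (Or.inr hA)
        have hD : MeasurableSet (A ∩ {x | ‖(w : Ω → 𝕜) x‖ ≤ M}) :=
          hAm.inter (measurableSet_le hwm.norm measurable_const)
        refine ⟨A ∩ {x | ‖(w : Ω → 𝕜) x‖ ≤ M}, ⟨∅, by simp, {⟨A, hA⟩}, M, _, hD, ?_,
          fun x hx => hx.2, by simp⟩, ?_⟩
        · intro x hx
          simpa using hx.1
        · exact hkey _ hD (fun x hx => ⟨hx.1, hx.2.2⟩)) hε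
  have hBm : MeasurableSet ((⋃ A ∈ G, A) ∪ B') := (hUm G hG).union hB'm
  rw [measureReal_def, withDensity_apply _ hBm.compl,
    ← integral_norm_eq_lintegral_enorm hwi.aestronglyMeasurable.restrict] at hB
  refine ⟨F, M, B', hB'm, hB'F, hB'M, ?_⟩
  have h1 : B'ᶜ ⊆ ((⋃ A ∈ G, A) ∪ B')ᶜ ∪ (⋃ A ∈ G, A) := by
    intro x hx
    by_cases h : x ∈ ⋃ A ∈ G, A
    · exact Or.inr h
    · left
      rintro (h' | h')
      · exact h h'
      · exact hx h'
  have h2 : ∫ x in B'ᶜ, ‖(w : Ω → 𝕜) x‖ ∂μ ≤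
      ∫ x in ((⋃ A ∈ G, A) ∪ B')ᶜ ∪ (⋃ A ∈ G, A), ‖(w : Ω → 𝕜) x‖ ∂μ :=
    setIntegral_mono_set hwi.norm.integrableOn (Eventually.of_forall (fun x => norm_nonneg _))
      (LE.le.eventuallyLE h1)
  have h3 := int_union_le hwi hBm.compl (hUm G hG)
  have h4 := TRUNC_union_le hwi G (fun A hA => hm A (Or.inl (hG A hA)))
  have h5 := hsmall G hG
  linarith

end DualL1
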